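import Pool.Agent.H717.PM.Stm
import Pool.Agent.H195.PM.Conv

/-!
# PCG recognition with positive weights is in NP (task NPPCG of helper717)
-/

set_option autoImplicit false

namespace Pool.Agent.H721.PM

open Pool.Agent.NPC Pool.Agent.H622R2 Pool.Agent.H717.PM
open Pool.Agent.TH667.PCG (LeafTree)

/-- The empty graph on no vertices is not the graph of a tree: a finite tree has a vertex with at
most one neighbour. -/
theorem deg_zero (G : SimpleGraph (Fin 0)) : ¬ Pool.Agent.H717.PR.IsPCG G := by
  rintro ⟨t, -, -, -, -, -⟩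
  have hfin : Finite t.W := t.fin
  have hno : ∀ x : t.W, ¬ (t.T.neighborSet x).ncard ≤ 1 := by
    intro x hx
    obtain ⟨v, -⟩ := (t.leaf_iff x).2 hx
    exact v.elim0
  obtain ⟨x0⟩ := t.isTree.connected.nonempty
  by_cases hnt : Nontrivial t.W
  · have _ : Fintype t.W := Fintype.ofFinite _
    classical
    obtain ⟨v, hv⟩ := t.isTree.exists_vert_degree_one_of_nontrivial
    refine hno v ?_
    rw [Set.ncard_eq_toFinset_card', ← SimpleGraph.neighborFinset_def,
      SimpleGraph.card_neighborFinset_eq_degree, hv]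
  · rw [not_nontrivial_iff_subsingleton] at hnt
    refine hno x0 ?_
    have h1 : t.T.neighborSet x0 = ∅ := by
      ext y
      simp only [SimpleGraph.mem_neighborSet, Set.mem_empty_iff_false, iff_false]
      intro h
      exact h.ne (Subsingleton.elim _ _)
    rw [h1]
    simp

/-- The graph with one vertex is the graph of the tree with one vertex. -/
theorem deg_one (G : SimpleGraph (Fin 1)) : Pool.Agent.H717.PR.IsPCG G := by
  have hT : (⊥ : SimpleGraph (Fin 1)).IsTree := by
    refine ⟨⟨?_⟩, ?_⟩
    · intro x y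
      rw [Subsingleton.elim x y]
    · intro v c hc
      exact (by simpa using hc.ne_bot : False).elim
  refine ⟨{ W := Fin 1, fin := inferInstance, T := ⊥, isTree := hT, w := fun _ => 1,
            w_pos := fun e he => one_pos, leaf := fun v => v, leaf_inj := fun a b h => h,
            leaf_iff := fun x => ⟨fun _ => ?_, fun _ => ⟨x, rfl⟩⟩ }, 0, 0, le_rfl, le_rfl, ?_⟩
  · have h1 : (⊥ : SimpleGraph (Fin 1)).neighborSet x = ∅ := by
      ext y
      simp
    rw [h1]
    simp
  · ext u v
    constructor
    · intro h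
      exact (h.ne (Subsingleton.elim _ _)).elim
    · intro h
      exact (h.1 (Subsingleton.elim _ _)).elim

/-- From a positive tree to an OR representation with one tree. -/
theorem orRec_of_pcg {M : List (List Bool)} (h2 : 2 ≤ M.length)
    (h : Pool.Agent.H717.PR.PCGRecognition M) : OrRec (M, 1) := by
  refine ⟨le_rfl, ?_⟩
  obtain ⟨t, a, b, ha, hab, hG⟩ := h
  have hnt : Nontrivial (Fin M.length) := Fin.nontrivial_iff_two_le.2 h2
  obtain ⟨τ, hτ⟩ := Pool.Agent.H195.PM.t_conv (Fin M.length) t
  refine (Pool.Agent.H195.PM.t_one (Fin M.length) (matGraph M)).1.2 ?_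
  refine ⟨τ, Set.Icc a b, ⟨Set.ordConnected_Icc, fun x hx => ha.trans hx.1⟩, fun u v huv => ?_⟩
  rw [hG, hτ]
  exact ⟨fun h => h.2, fun h => ⟨huv, h⟩⟩

/-- The verifier. -/
def chk (p : List (List Bool) × Crt) : Bool :=
  decide (p.1.length = 1) || (!decide (p.1.length = 0) && chkOr ((p.1, 1), p.2))

theorem poly_chk (h : NPC.Poly chkOr) : NPC.Poly chk := by
  unfold chk
  refine Poly.or (Poly.decide_eq (Poly.length (Poly.fst Poly.id)) (Pool.Agent.NPC.Poly.const 1))
    (Poly.and (Poly.not (Poly.decide_eq (Poly.length (Poly.fst Poly.id))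
      (Pool.Agent.NPC.Poly.const 0))) ?_)
  exact h.comp (Poly.pair (Poly.pair (Poly.fst Poly.id) (Pool.Agent.NPC.Poly.const 1))
    (Poly.snd Poly.id))

/-- **Recognition of pairwise compatibility graphs (positive weights) is in NP.** -/
theorem np_pcg (hcompl : S_compl) (hsize : S_size) (hsound : S_sound) (hpchk : S_pchk)
    (hpos : ∀ (V : Type) [Finite V] [Nontrivial V] (G : SimpleGraph V),
      Pool.Agent.R39.PCG.IsPCG G → Pool.Agent.H717.PR.IsPCG G) :
    InNPP Pool.Agent.H717.PR.PCGRecognition := by
  obtain ⟨P, hP, -⟩ := hsize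
  refine inNPP_of (β := Crt) (poly_chk hpchk.1)
    (P.comp (Polynomial.X + Polynomial.C (sz (1 : ℕ) + 1)) + Polynomial.C 1) fun M => ?_
  have hev : (P.comp (Polynomial.X + Polynomial.C (sz (1 : ℕ) + 1)) + Polynomial.C 1).eval (sz M)
      = P.eval (sz (M, (1 : ℕ))) + 1 := by
    rw [Polynomial.eval_add, Polynomial.eval_comp, Polynomial.eval_add, Polynomial.eval_X,
      Polynomial.eval_C, Polynomial.eval_C, sz_pair, add_assoc]
  rw [hev]
  constructor
  · intro h
    by_cases h1 : M.length = 1
    · refine ⟨[], ?_, ?_⟩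
      · rw [sz_list_nil]
        omega
      · simp [chk, h1]
    · by_cases h0 : M.length = 0
      · exfalso
        have hM : M = [] := List.eq_nil_of_length_eq_zero h0
        subst hM
        exact deg_zero _ h
      · obtain ⟨c, hc, hl, hb⟩ := hcompl.1 (M, 1) (orRec_of_pcg (by omega) h)
        refine ⟨c, ?_, ?_⟩
        · exact (hP (M, 1) c hl hb).trans (Nat.le_succ _)
        · simp [chk, h0, hc]
  · rintro ⟨c, -, hc⟩
    by_cases h1 : M.length = 1
    · obtain ⟨a, rfl⟩ := List.length_eq_one_iff.1 h1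
      exact deg_one _
    · simp only [chk, Bool.or_eq_true, decide_eq_true_eq, h1, false_or, Bool.and_eq_true,
        Bool.not_eq_true', decide_eq_false_iff_not] at hc
      have h2 : 2 ≤ M.length := by omega
      have hnt : Nontrivial (Fin M.length) := Fin.nontrivial_iff_two_le.2 h2
      have hOr := hsound.1 (M, 1) c hc.2
      exact hpos (Fin M.length) (matGraph M)
        ((Pool.Agent.H195.PM.t_one (Fin M.length) (matGraph M)).1.1 hOr.2)

end Pool.Agent.H721.PM
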